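import Pool.Agent.Helper27.UC.Goals4

/-!
# PROJECT UC (MP_d3128a_ag), packet ARV: arithmetic
-/

set_option autoImplicit false

namespace Pool.Agent.Helper12.UC.ARV

open Finset
open Pool.Agent.Helper27.UC

theorem le_of_sq {a b : ℝ} (ha : 0 ≤ a) (hb : 0 ≤ b) (h : a ^ 2 ≤ b ^ 2) : a ≤ b :=
  (pow_le_pow_iff_left₀ ha hb two_ne_zero).1 h

theorem lt_of_sq {a b : ℝ} (hb : 0 ≤ b) (h : a ^ 2 < b ^ 2) : a < b :=
  lt_of_pow_lt_pow_left₀ 2 hb h

/-- Data for one value `x`; `K = 20 c (2 x + 1)`. -/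
theorem one (S K : ℝ) (n : ℕ) (hK : 0 < K) (h1 : 2 * K ≤ S) (h2 : 7 * S ≤ K * n) :
    ∃ j s : ℕ, n = 4 * j + s ∧ S ≤ K * s ∧ K * s < 3 * S ∧ S < K * j := by
  have hS : 0 < S := by linarith
  have hn : S / K ≤ (n : ℝ) := by
    rw [div_le_iff₀ hK]
    nlinarith
  set a : ℕ := ⌈S / K⌉₊ with ha
  have ha1 : S / K ≤ (a : ℝ) := Nat.le_ceil _
  have ha2 : (a : ℝ) < S / K + 1 := Nat.ceil_lt_add_one (div_nonneg hS.le hK.le)
  have ha3 : a ≤ n := Nat.ceil_le.mpr hn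
  refine ⟨(n - a) / 4, a + (n - a) % 4, by omega, ?_, ?_, ?_⟩
  · rw [div_le_iff₀ hK] at ha1
    push_cast
    have : (0 : ℝ) ≤ (((n - a) % 4 : ℕ) : ℝ) := Nat.cast_nonneg _
    nlinarith
  · have h3 : (((n - a) % 4 : ℕ) : ℝ) ≤ 3 := by
      have : (n - a) % 4 ≤ 3 := by omega
      exact_mod_cast this
    have h4 : K * (a : ℝ) < S + K := by
      have := mul_lt_mul_of_pos_left ha2 hK
      rwa [mul_add, mul_one, mul_div_cancel₀ _ hK.ne'] at this
    rw [Nat.cast_add]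
    nlinarith
  · have h3 : (((n - a) % 4 : ℕ) : ℝ) ≤ 3 := by
      have : (n - a) % 4 ≤ 3 := by omega
      exact_mod_cast this
    have h4 : K * (a : ℝ) < S + K := by
      have := mul_lt_mul_of_pos_left ha2 hK
      rwa [mul_add, mul_one, mul_div_cancel₀ _ hK.ne'] at this
    have h5 : (n : ℝ) = 4 * (((n - a) / 4 : ℕ) : ℝ) + ((a : ℝ) + (((n - a) % 4 : ℕ) : ℝ)) := by
      have : n = 4 * ((n - a) / 4) + (a + (n - a) % 4) := by omega
      exact_mod_cast this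
    rw [h5] at h2
    nlinarith

theorem t : S_ARV := by
  classical
  intro c d D V N hLV hd1 hd2
  obtain ⟨hc, hV, hVc, hD, hN, hx⟩ := hLV
  set S : ℝ := Real.sqrt D with hSdef
  have hS2 : S ^ 2 = (D : ℝ) := Real.sq_sqrt (Nat.cast_nonneg _)
  have hS0 : 0 ≤ S := Real.sqrt_nonneg _
  have hcR : (1 : ℝ) ≤ (c : ℝ) := by exact_mod_cast hc
  have hx2 : ∀ x ∈ V, (2 : ℝ) ≤ (x : ℝ) := fun x h => by exact_mod_cast (hx x h).1
  have hK : ∀ x ∈ V, 2 * (20 * (c : ℝ) * (2 * x + 1)) ≤ S := by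
    intro x h
    refine le_of_sq (by positivity) hS0 ?_
    rw [hS2]
    have := (hx x h).2.1
    have h2 : (((40 * c * (2 * x + 1)) ^ 2 : ℕ) : ℝ) ≤ (D : ℝ) := by exact_mod_cast this
    push_cast at h2
    linarith
  have hK7 : ∀ x ∈ V, 7 * S ≤ 20 * (c : ℝ) * (2 * x + 1) * (N x : ℝ) := by
    intro x h
    refine le_of_sq (by positivity) (by positivity) ?_
    rw [mul_pow, hS2]
    have := (hx x h).2.2
    have h2 : ((49 * D : ℕ) : ℝ) ≤ (((20 * c * (N x * (2 * x + 1))) ^ 2 : ℕ) : ℝ) := by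
      exact_mod_cast this
    push_cast at h2
    linarith
  have hS200 : 200 ≤ S := by
    obtain ⟨x, h⟩ := hV
    have h1 := hK x h
    have h2 := hx2 x h
    nlinarith
  have hd1' : 2 * (d : ℝ) + 1 < S := by
    refine lt_of_sq hS0 ?_
    rw [hS2]
    exact_mod_cast hd1
  have hd2' : 7 * S ≤ 14 * (d : ℝ) + 37 := by
    refine le_of_sq (by positivity) (by positivity) ?_
    rw [mul_pow, hS2]
    have h2 : ((49 * D : ℕ) : ℝ) ≤ (((14 * d + 37) ^ 2 : ℕ) : ℝ) := by exact_mod_cast hd2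
    push_cast at h2
    linarith
  have hex : ∀ x, ∃ j s : ℕ, x ∈ V → N x = 4 * j + s ∧ S ≤ 20 * (c : ℝ) * (2 * x + 1) * s ∧
      20 * (c : ℝ) * (2 * x + 1) * s < 3 * S ∧ S < 20 * (c : ℝ) * (2 * x + 1) * j := by
    intro x
    by_cases h : x ∈ V
    · obtain ⟨j, s, h1⟩ := one S (20 * (c : ℝ) * (2 * x + 1)) (N x) (by positivity) (hK x h)
        (hK7 x h)
      exact ⟨j, s, fun _ => h1⟩
    · exact ⟨0, 0, fun h' => absurd h' h⟩
  choose j s hjs using hex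
  have hsw : ∀ x ∈ V, (s x : ℝ) * (2 * x + 1) ≤ 3 * S / (20 * c) := by
    intro x h
    rw [le_div_iff₀ (by positivity)]
    have := (hjs x h).2.2.1
    nlinarith
  have hsum : ∑ x ∈ V, (s x : ℝ) * (2 * x + 1) ≤ 3 * S / 20 := by
    calc ∑ x ∈ V, (s x : ℝ) * (2 * x + 1) ≤ ∑ _x ∈ V, 3 * S / (20 * c) := sum_le_sum hsw
      _ = (V.card : ℝ) * (3 * S / (20 * c)) := by rw [sum_const, nsmul_eq_mul]
      _ ≤ (c : ℝ) * (3 * S / (20 * c)) := by
          refine mul_le_mul_of_nonneg_right (by exact_mod_cast hVc) (by positivity)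
      _ = 3 * S / 20 := by field_simp
  refine ⟨j, s, ?_, ?_, ?_⟩
  · intro x h
    obtain ⟨e1, e2, e3, e4⟩ := hjs x h
    have k1 := hK x h
    have k2 := hx2 x h
    have kp : (0 : ℝ) < 20 * (c : ℝ) * (2 * x + 1) := by positivity
    have j2 : 2 ≤ j x := by
      have h1 : (1 : ℝ) < (j x : ℝ) := by
        have : 20 * (c : ℝ) * (2 * x + 1) * 1 < 20 * (c : ℝ) * (2 * x + 1) * j x := by linarith
        exact lt_of_mul_lt_mul_left this kp.le
      have : 1 < j x := by exact_mod_cast h1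
      omega
    have s2 : 2 ≤ s x := by
      have h1 : (2 : ℝ) ≤ (s x : ℝ) := by
        have : 20 * (c : ℝ) * (2 * x + 1) * 2 ≤ 20 * (c : ℝ) * (2 * x + 1) * s x := by linarith
        exact le_of_mul_le_mul_left this kp
      exact_mod_cast h1
    have s2' : (2 : ℝ) ≤ (s x : ℝ) := by exact_mod_cast s2
    refine ⟨e1, j2, s2, ?_, ?_, ?_, ?_, ?_, ?_⟩
    · have := (hx x h).2.1
      calc (20 * c * (2 * (2 * x + 1))) ^ 2 = (40 * c * (2 * x + 1)) ^ 2 := by ring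
        _ ≤ D := this
    · have h1 : S ^ 2 ≤ (20 * (c : ℝ) * (j x * (2 * (2 * x + 1)))) ^ 2 := by
        refine pow_le_pow_left₀ hS0 ?_ 2
        nlinarith
      rw [hS2] at h1
      exact_mod_cast h1
    · have h1 : S ^ 2 ≤ (20 * (c : ℝ) * (s x * (2 * x + 1))) ^ 2 := by
        refine pow_le_pow_left₀ hS0 ?_ 2
        nlinarith
      rw [hS2] at h1
      exact_mod_cast h1
    · have h1 : 20 * (c : ℝ) * (2 * x + 1) < (d : ℝ) + 3 := by linarith
      exact_mod_cast h1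
    · have h1 : (d : ℝ) + 3 ≤ 20 * (c : ℝ) * (j x * (2 * x + 1)) := by nlinarith
      exact_mod_cast h1
    · have h1 : (d : ℝ) + 3 ≤ 20 * (c : ℝ) * (s x * (x + 1)) := by
        have h2 : (2 : ℝ) ≤ (c : ℝ) * s x := by nlinarith
        nlinarith
      exact_mod_cast h1
  · have hDs : (D : ℝ) = ∑ x ∈ V, (N x : ℝ) * (2 * x + 1) ^ 2 := by
      rw [hD]
      push_cast
      rfl
    have e : 4 * ∑ x ∈ V, ((j x : ℝ) * (2 * x + 1) ^ 2 + s x * (x + 1) ^ 2) =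
        (D : ℝ) + ∑ x ∈ V, (s x : ℝ) * (4 * x + 3) := by
      rw [hDs, mul_sum, ← sum_add_distrib]
      refine sum_congr rfl fun x h => ?_
      have h1 : (N x : ℝ) = 4 * j x + s x := by exact_mod_cast (hjs x h).1
      rw [h1]
      ring
    have e2 : ∑ x ∈ V, (s x : ℝ) * (4 * x + 3) ≤ 11 / 5 * ∑ x ∈ V, (s x : ℝ) * (2 * x + 1) := by
      rw [mul_sum]
      refine sum_le_sum fun x h => ?_
      have h2 := hx2 x h
      have h3 : (0 : ℝ) ≤ (s x : ℝ) := Nat.cast_nonneg _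
      nlinarith
    have e3 : (∑ x ∈ V, ((j x : ℝ) * (2 * x + 1) ^ 2 + s x * (x + 1) ^ 2)) < ((d : ℝ) + 3) ^ 2 := by
      have h1 : S + 5 / 7 ≤ 2 * ((d : ℝ) + 3) := by linarith
      have h2 : (S + 5 / 7) ^ 2 ≤ (2 * ((d : ℝ) + 3)) ^ 2 := pow_le_pow_left₀ (by positivity) h1 2
      nlinarith
    exact_mod_cast e3
  · intro u hu
    have h1 : (∑ x ∈ V, (s x : ℝ) * (2 * x + 1) + 4 * ∑ x ∈ V, (j x : ℝ) + 8 * u) < S := by
      have h2 : 4 * ∑ x ∈ V, (j x : ℝ) ≤ ∑ x ∈ V, (N x : ℝ) := by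
        rw [mul_sum]
        refine sum_le_sum fun x h => ?_
        have h1 : (N x : ℝ) = 4 * j x + s x := by exact_mod_cast (hjs x h).1
        have h3 : (0 : ℝ) ≤ (s x : ℝ) := Nat.cast_nonneg _
        linarith
      have h3 : 2 * ∑ x ∈ V, (N x : ℝ) ≤ S := by
        refine le_of_sq (mul_nonneg (by norm_num) (sum_nonneg fun _ _ => Nat.cast_nonneg _)) hS0 ?_
        rw [hS2, mul_pow]
        have h4 : ((4 * (∑ x ∈ V, N x) ^ 2 : ℕ) : ℝ) ≤ (D : ℝ) := by exact_mod_cast hN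
        push_cast at h4
        linarith
      have h5 := hK u hu
      have h6 : 40 * (2 * (u : ℝ) + 1) ≤ S := by
        have : (0 : ℝ) ≤ (u : ℝ) := Nat.cast_nonneg _
        nlinarith
      linarith
    have h2 : (∑ x ∈ V, (s x : ℝ) * (2 * x + 1) + 4 * ∑ x ∈ V, (j x : ℝ) + 8 * u) ^ 2 < S ^ 2 := by
      refine pow_lt_pow_left₀ h1 ?_ two_ne_zero
      have a1 : (0 : ℝ) ≤ ∑ x ∈ V, (s x : ℝ) * (2 * x + 1) := sum_nonneg fun x _ => by positivity
      have a2 : (0 : ℝ) ≤ ∑ x ∈ V, (j x : ℝ) := sum_nonneg fun x _ => Nat.cast_nonneg _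
      positivity
    rw [hS2] at h2
    exact_mod_cast h2

end Pool.Agent.Helper12.UC.ARV
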