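import Pool.Agent.Helper27.UC.Goals5

/-!
# PROJECT UC (MP_d3128a_ag), packet ARW: arithmetic, two levels
-/

set_option autoImplicit false

namespace Pool.Agent.Helper12.UC.ARW

open Finset
open Pool.Agent.Helper27.UC

theorem le_of_sq {a b : ℝ} (ha : 0 ≤ a) (hb : 0 ≤ b) (h : a ^ 2 ≤ b ^ 2) : a ≤ b :=
  (pow_le_pow_iff_left₀ ha hb two_ne_zero).1 h

/-- `s` with `T ≤ K s < T + 4 K` and `s ≡ n` mod 4. -/
theorem pick (K T : ℝ) (n : ℕ) (hK : 0 < K) (hT : 0 ≤ T) (h : T ≤ K * n) :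
    ∃ j s : ℕ, n = 4 * j + s ∧ T ≤ K * s ∧ K * s < T + 4 * K := by
  have hn : T / K ≤ (n : ℝ) := by
    rw [div_le_iff₀ hK]
    nlinarith
  set a : ℕ := ⌈T / K⌉₊ with ha
  have ha1 : T / K ≤ (a : ℝ) := Nat.le_ceil _
  have ha2 : (a : ℝ) < T / K + 1 := Nat.ceil_lt_add_one (div_nonneg hT hK.le)
  have ha3 : a ≤ n := Nat.ceil_le.mpr hn
  refine ⟨(n - a) / 4, a + (n - a) % 4, by omega, ?_, ?_⟩
  · rw [div_le_iff₀ hK] at ha1
    rw [Nat.cast_add]
    have : (0 : ℝ) ≤ (((n - a) % 4 : ℕ) : ℝ) := Nat.cast_nonneg _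
    nlinarith
  · have h3 : (((n - a) % 4 : ℕ) : ℝ) ≤ 3 := by
      have : (n - a) % 4 ≤ 3 := by omega
      exact_mod_cast this
    have h4 : K * (a : ℝ) < T + K := by
      have := mul_lt_mul_of_pos_left ha2 hK
      rwa [mul_add, mul_one, mul_div_cancel₀ _ hK.ne'] at this
    rw [Nat.cast_add]
    nlinarith

/-- The data for one value. -/
theorem one (S K : ℝ) (n : ℕ) (hK : 0 < K) (hS : 0 ≤ S) (h1 : 5 * K ≤ S) (h2 : 20 * S ≤ K * n) :
    ∃ j2 s1 s0 : ℕ, n = 4 * (4 * j2 + s1) + s0 ∧ 5 / 2 * S ≤ 4 * (K * j2) ∧ S ≤ K * s1 ∧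
      K * s1 < 9 / 5 * S ∧ 2 * S ≤ K * s0 ∧ K * s0 < 14 / 5 * S := by
  obtain ⟨j1, s0, e0, a1, a2⟩ := pick K (2 * S) n hK (by linarith) (by linarith)
  have e0' : (n : ℝ) = 4 * j1 + s0 := by exact_mod_cast e0
  rw [e0'] at h2
  obtain ⟨j2, s1, e1, b1, b2⟩ := pick K S j1 hK hS (by nlinarith)
  have e1' : (j1 : ℝ) = 4 * j2 + s1 := by exact_mod_cast e1
  rw [e1'] at h2
  refine ⟨j2, s1, s0, by rw [e0, e1], ?_, b1, ?_, a1, ?_⟩
  · nlinarith
  · linarith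
  · linarith

theorem t : S_ARW := by
  classical
  intro c d Q V N hLW hd1 hd2
  obtain ⟨hc, hV, hVc, hQ, hx⟩ := hLW
  set S : ℝ := Real.sqrt Q with hSdef
  have hS2 : S ^ 2 = (Q : ℝ) := Real.sq_sqrt (Nat.cast_nonneg _)
  have hS0 : 0 ≤ S := Real.sqrt_nonneg _
  have hcR : (1 : ℝ) ≤ (c : ℝ) := by exact_mod_cast hc
  have hx1 : ∀ x ∈ V, (1 : ℝ) ≤ (x : ℝ) := fun x h => by exact_mod_cast (hx x h).1
  have hK : ∀ x ∈ V, 5 * (20 * (c : ℝ) * x) ≤ S := by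
    intro x h
    refine le_of_sq (by positivity) hS0 ?_
    rw [hS2]
    have := (hx x h).2.1
    have h2 : (((100 * c * x) ^ 2 : ℕ) : ℝ) ≤ (Q : ℝ) := by exact_mod_cast this
    push_cast at h2
    linarith
  have hKN : ∀ x ∈ V, 20 * S ≤ 20 * (c : ℝ) * x * (N x : ℝ) := by
    intro x h
    have h3 : S ≤ (c : ℝ) * (x * N x) := by
      refine le_of_sq hS0 (by positivity) ?_
      rw [hS2]
      have := (hx x h).2.2
      exact_mod_cast this
    nlinarith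
  have hS100 : 100 ≤ S := by
    obtain ⟨x, h⟩ := hV
    have h1 := hK x h
    have h2 := hx1 x h
    nlinarith
  set M : ℝ := ∑ x ∈ V, (N x : ℝ) * x with hM
  have hQs : (Q : ℝ) = ∑ x ∈ V, (N x : ℝ) * (x : ℝ) ^ 2 := by
    rw [hQ]
    push_cast
    rfl
  have hM0 : 0 ≤ M := sum_nonneg fun x _ => by positivity
  have hMQ : M ≤ (Q : ℝ) := by
    rw [hQs]
    refine sum_le_sum fun x h => ?_
    have h1 := hx1 x h
    have h2 : (0 : ℝ) ≤ (N x : ℝ) := Nat.cast_nonneg _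
    have h3 : (x : ℝ) ≤ (x : ℝ) ^ 2 := by nlinarith
    exact mul_le_mul_of_nonneg_left h3 h2
  have hd1' : (d : ℝ) * (d + 1) < S ^ 2 + M := by
    rw [hS2]
    have h2 : ((d * (d + 1) : ℕ) : ℝ) < ((Q + ∑ x ∈ V, N x * x : ℕ) : ℝ) := by exact_mod_cast hd1
    push_cast at h2
    exact h2
  have hd2' : S ^ 2 + M ≤ ((d : ℝ) + 2) * (d + 3) := by
    rw [hS2]
    have h2 : ((Q + ∑ x ∈ V, N x * x : ℕ) : ℝ) ≤ (((d + 2) * (d + 3) : ℕ) : ℝ) := by
      exact_mod_cast hd2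
    push_cast at h2
    exact h2
  rw [← hS2] at hMQ
  have hd0 : (0 : ℝ) ≤ (d : ℝ) := Nat.cast_nonneg _
  have hdS : S < (d : ℝ) + 3 := by
    by_contra hcon
    push Not at hcon
    nlinarith
  have hd2S : (d : ℝ) + 3 ≤ 2 * S := by
    by_contra hcon
    push Not at hcon
    nlinarith
  have hex : ∀ x, ∃ j2 s1 s0 : ℕ, x ∈ V → N x = 4 * (4 * j2 + s1) + s0 ∧
      5 / 2 * S ≤ 4 * (20 * (c : ℝ) * x * j2) ∧ S ≤ 20 * (c : ℝ) * x * s1 ∧
      20 * (c : ℝ) * x * s1 < 9 / 5 * S ∧ 2 * S ≤ 20 * (c : ℝ) * x * s0 ∧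
      20 * (c : ℝ) * x * s0 < 14 / 5 * S := by
    intro x
    by_cases h : x ∈ V
    · have hxp : (0 : ℝ) < (x : ℝ) := by linarith [hx1 x h]
      obtain ⟨j2, s1, s0, h1⟩ := one S (20 * (c : ℝ) * x) (N x) (by positivity) hS0 (hK x h)
        (hKN x h)
      exact ⟨j2, s1, s0, fun _ => h1⟩
    · exact ⟨0, 0, 0, fun h' => absurd h' h⟩
  choose j2 s1 s0 hjs using hex
  have hN : ∀ x ∈ V, (N x : ℝ) = 16 * j2 x + 4 * s1 x + s0 x := by
    intro x h
    have h1 : (N x : ℝ) = 4 * (4 * j2 x + s1 x) + s0 x := by exact_mod_cast (hjs x h).1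
    rw [h1]
    ring
  have hcs : (c : ℝ) * (S / c) = S := by field_simp
  have hsum : ∀ (f : ℕ → ℝ) (a : ℝ), 0 ≤ a → (∀ x ∈ V, f x ≤ a * (S / c)) → ∑ x ∈ V, f x ≤ a * S := by
    intro f a ha hf
    calc ∑ x ∈ V, f x ≤ ∑ _x ∈ V, a * (S / c) := sum_le_sum hf
      _ = (V.card : ℝ) * (a * (S / c)) := by rw [sum_const, nsmul_eq_mul]
      _ ≤ (c : ℝ) * (a * (S / c)) := by
          refine mul_le_mul_of_nonneg_right (by exact_mod_cast hVc) (by positivity)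
      _ = a * S := by rw [mul_left_comm, hcs]
  have hs1x : ∀ x ∈ V, (s1 x : ℝ) * x ≤ 9 / 100 * (S / c) := by
    intro x h
    have h1 := (hjs x h).2.2.2.1
    rw [mul_div_assoc', le_div_iff₀ (by positivity)]
    nlinarith
  have hs0x : ∀ x ∈ V, (s0 x : ℝ) * x ≤ 14 / 100 * (S / c) := by
    intro x h
    have h1 := (hjs x h).2.2.2.2.2
    rw [mul_div_assoc', le_div_iff₀ (by positivity)]
    nlinarith
  have hs1 : ∀ x ∈ V, (s1 x : ℝ) ≤ 9 / 100 * (S / c) := by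
    intro x h
    have h1 := hs1x x h
    have h2 := hx1 x h
    have h3 : (0 : ℝ) ≤ (s1 x : ℝ) := Nat.cast_nonneg _
    nlinarith
  have hs0 : ∀ x ∈ V, (s0 x : ℝ) ≤ 14 / 100 * (S / c) := by
    intro x h
    have h1 := hs0x x h
    have h2 := hx1 x h
    have h3 : (0 : ℝ) ≤ (s0 x : ℝ) := Nat.cast_nonneg _
    nlinarith
  have S1x := hsum (fun x => (s1 x : ℝ) * x) _ (by norm_num) hs1x
  have S0x := hsum (fun x => (s0 x : ℝ) * x) _ (by norm_num) hs0x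
  have S1 := hsum (fun x => (s1 x : ℝ)) _ (by norm_num) hs1
  have S0 := hsum (fun x => (s0 x : ℝ)) _ (by norm_num) hs0
  refine ⟨j2, s1, s0, ?_, ?_, ?_⟩
  · intro x h
    obtain ⟨e1, e2, e3, e4, e5, e6⟩ := hjs x h
    have k1 := hK x h
    have k2 := hx1 x h
    have hxp : (0 : ℝ) < (x : ℝ) := by linarith
    have kp : (0 : ℝ) < 20 * (c : ℝ) * x := by positivity
    have j2p : 2 ≤ j2 x := by
      have h1 : (1 : ℝ) < (j2 x : ℝ) := by
        have : 20 * (c : ℝ) * x * 1 < 20 * (c : ℝ) * x * j2 x := by linarith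
        exact lt_of_mul_lt_mul_left this kp.le
      have : 1 < j2 x := by exact_mod_cast h1
      omega
    have s1p : 2 ≤ s1 x := by
      have h1 : (1 : ℝ) < (s1 x : ℝ) := by
        have : 20 * (c : ℝ) * x * 1 < 20 * (c : ℝ) * x * s1 x := by linarith
        exact lt_of_mul_lt_mul_left this kp.le
      have : 1 < s1 x := by exact_mod_cast h1
      omega
    have s0p : 2 ≤ s0 x := by
      have h1 : (1 : ℝ) < (s0 x : ℝ) := by
        have : 20 * (c : ℝ) * x * 1 < 20 * (c : ℝ) * x * s0 x := by linarith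
        exact lt_of_mul_lt_mul_left this kp.le
      have : 1 < s0 x := by exact_mod_cast h1
      omega
    have sqn : ∀ n : ℕ, S ≤ (n : ℝ) → Q ≤ n ^ 2 := by
      intro n hn
      have h1 : S ^ 2 ≤ (n : ℝ) ^ 2 := pow_le_pow_left₀ hS0 hn 2
      rw [hS2] at h1
      exact_mod_cast h1
    refine ⟨e1, j2p, s1p, s0p, ?_, ?_, ?_, ?_, ?_, ?_, ?_, ?_⟩
    · have h1 := (hx x h).2.1
      refine le_trans (Nat.pow_le_pow_left ?_ 2) h1
      calc 20 * c * (4 * x) = 80 * (c * x) := by ring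
        _ ≤ 100 * (c * x) := Nat.mul_le_mul_right _ (by norm_num)
        _ = 100 * c * x := by ring
    · apply sqn
      push_cast
      linarith
    · apply sqn
      push_cast
      linarith
    · apply sqn
      push_cast
      linarith
    · have h1 : 20 * (c : ℝ) * (4 * x + 1) < (d : ℝ) + 3 := by nlinarith
      exact_mod_cast h1
    · have h1 : (d : ℝ) + 3 ≤ 20 * (c : ℝ) * (j2 x * (4 * x + 1)) := by
        have : (0 : ℝ) ≤ (c : ℝ) * j2 x := by positivity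
        nlinarith
      exact_mod_cast h1
    · have h1 : (d : ℝ) + 3 ≤ 20 * (c : ℝ) * (s1 x * (2 * x + 1)) := by
        have : (0 : ℝ) ≤ (c : ℝ) * s1 x := by positivity
        nlinarith
      exact_mod_cast h1
    · have h1 : (d : ℝ) + 3 ≤ 20 * (c : ℝ) * (s0 x * (x + 1)) := by
        have : (0 : ℝ) ≤ (c : ℝ) * s0 x := by positivity
        nlinarith
      exact_mod_cast h1
  · have e : ∑ x ∈ V, ((j2 x : ℝ) * (4 * x + 1) ^ 2 + s1 x * (2 * x + 1) ^ 2 + s0 x * (x + 1) ^ 2) =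
        S ^ 2 + 1 / 2 * M + ∑ x ∈ V, (j2 x : ℝ) + 2 * ∑ x ∈ V, (s1 x : ℝ) * x +
          3 / 2 * ∑ x ∈ V, (s0 x : ℝ) * x + ∑ x ∈ V, (s1 x : ℝ) + ∑ x ∈ V, (s0 x : ℝ) := by
      rw [hS2, hQs, hM, mul_sum, mul_sum, mul_sum, ← sum_add_distrib, ← sum_add_distrib,
        ← sum_add_distrib, ← sum_add_distrib, ← sum_add_distrib, ← sum_add_distrib]
      refine sum_congr rfl fun x h => ?_
      rw [hN x h]
      ring
    have e2 : 16 * ∑ x ∈ V, (j2 x : ℝ) ≤ M := by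
      rw [mul_sum, hM]
      refine sum_le_sum fun x h => ?_
      rw [hN x h]
      have h1 := hx1 x h
      have h2 : (0 : ℝ) ≤ (j2 x : ℝ) := Nat.cast_nonneg _
      have h3 : (0 : ℝ) ≤ (s1 x : ℝ) := Nat.cast_nonneg _
      have h4 : (0 : ℝ) ≤ (s0 x : ℝ) := Nat.cast_nonneg _
      nlinarith
    have e3 : ∑ x ∈ V, ((j2 x : ℝ) * (4 * x + 1) ^ 2 + s1 x * (2 * x + 1) ^ 2 +
        s0 x * (x + 1) ^ 2) < ((d : ℝ) + 3) ^ 2 := by
      rw [e]
      have h1 : ((d : ℝ) + 3) ^ 2 = ((d : ℝ) + 2) * (d + 3) + (d + 3) := by ring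
      rw [h1]
      linarith
    exact_mod_cast e3
  · intro u hu
    have h1 : (u : ℝ) ≤ S / 100 := by
      have := hK u hu
      have h2 : (0 : ℝ) ≤ (u : ℝ) := Nat.cast_nonneg _
      rw [le_div_iff₀ (by norm_num)]
      nlinarith
    have hle : u ≤ ∑ x ∈ V, (4 * j2 x + s1 x) * x := by
      have h3 : (4 * j2 u + s1 u) * u ≤ ∑ x ∈ V, (4 * j2 x + s1 x) * x :=
        single_le_sum (f := fun x => (4 * j2 x + s1 x) * x) (fun x _ => Nat.zero_le _) hu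
      refine le_trans ?_ h3
      have h4 : 1 ≤ s1 u := by
        by_contra hcon
        have h5 : s1 u = 0 := by omega
        have h6 := (hjs u hu).2.2.1
        rw [h5] at h6
        simp at h6
        linarith
      exact Nat.le_mul_of_pos_left u (by omega)
    have h2 : ∑ x ∈ V, (4 * (j2 x : ℝ) + s1 x) * x = 1 / 4 * M - 1 / 4 * ∑ x ∈ V, (s0 x : ℝ) * x := by
      rw [hM, mul_sum, mul_sum, ← sum_sub_distrib]
      refine sum_congr rfl fun x h => ?_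
      rw [hN x h]
      ring
    have h3 : S * d < S ^ 2 + 2 * (∑ x ∈ V, (4 * (j2 x : ℝ) + s1 x) * x - u) := by
      rw [h2]
      nlinarith [sq_nonneg (S - (d + 1 / 2))]
    have h4 : (S * d) ^ 2 < (S ^ 2 + 2 * (∑ x ∈ V, (4 * (j2 x : ℝ) + s1 x) * x - u)) ^ 2 :=
      pow_lt_pow_left₀ h3 (by positivity) two_ne_zero
    rw [mul_pow, hS2] at h4
    have h5 : ((Q * d ^ 2 : ℕ) : ℝ) <
        (((Q + 2 * (∑ x ∈ V, (4 * j2 x + s1 x) * x - u)) ^ 2 : ℕ) : ℝ) := by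
      push_cast [Nat.cast_sub hle]
      exact h4
    exact_mod_cast h5

end Pool.Agent.Helper12.UC.ARW
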